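import Pool.Agent.Helper29.MX.Bas
import Pool.Agent.Helper70.CPW.Evz
import Pool.Agent.Helper93.FST.Tk
import Pool.Agent.Helper38.NSL.He3
import Pool.Agent.Helper26.MT.Ze
import Pool.Agent.Helper25.MXD.Cnt

/-! FIRST, rows [N2], [N4], [N5], [CLZ] of helper15: entropies of a zoom over a literal label, in rows which are tame at
the distance `2 ^ (- a n)`. -/

set_option autoImplicit false

namespace Pool.Agent.Helper80.FST

open Finset Filter Topology Matrix Pool.Agent.Helper69.RK Pool.Agent.Helper31.EC Pool.Agent.Helper31.EC.Sp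
open Pool.Agent.Helper40.EL Pool.Agent.Helper89.LX Pool.Agent.Helper84.MT
open Pool.Agent.Helper7.GZ (ZU Rows jac)
open Pool.Agent.Helper7.RD (PZ upz clz)
open Pool.Agent.Helper70.CPW (zuz WinR)
open Pool.Agent.Helper29.MX
open Pool.Agent.Helper93.FST (TamP)
open Pool.Agent.Helper25.MXD (H_up1_upL)

noncomputable section

variable {S T : Sp} {N M' : ℕ} {E E' : ℕ → ℕ} {ι : Type}

/-- the cells of level `r` as a part -/
abbrev cP (Q : S.VV N) (r : ℝ) : Part S := fun k => fc (Setoid.ker (Q.cellv r k))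

theorem cP_Bd (Q : S.VV N) (r : ℝ) : (cP Q r).Bd := rpI_Bd (Q.bdd r).toInf

theorem H_dg_hr (Q : S.VV N) (r : ℝ) : H (Q.dg r) = hr (cP Q r) (fun _ => ⊥) := by
  have h2 : Q.dg r = cl (Q.bdd r).toInf := io_eq (Q.bdd r)
  rw [h2, Sp.H_cl]
  unfold hr
  congr 1
  funext k
  show _ = Helper31.EC.h (rpI (Q.bdd r).toInf k) ⊥ / (S.F k).n
  rw [h_bot, H_rpI]

/-- unit directions of the system itself -/
theorem ud_one {s : MSys S N E ι} {i : ι} {v : ℕ} (hi : Ud v s i) {c c' : ℝ} (h0 : 0 ≤ c) (h1 : c ≤ c') (h2 : c' ≤ 1) :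
    (v : ℝ) * (c' - c) ≤ hr (cP s.Q c') ((s.lf i).win c) := by
  have hA : 0 < ul (S.pr fun _ _ => True) := ul_pr_typ_pos _ Typ_true
  have h3 := hi S (Pj.id S) (fun _ _ => True) hA c c' h0 h1 h2
  refine h3.trans ?_
  have hpb : ∀ k, (S.F k).pb (fun _ => True) = 1 := by
    intro k
    have h2 : (S.F k).pb (fun _ => True) = ∑ ω, res (S.F k).μ (fun _ => True) ω := rfl
    rw [h2, ← (S.F k).ms]
    exact Finset.sum_congr rfl fun ω _ => res_pos _ _ _ trivial
  have hle : ∀ k, Helper31.EC.h (fc (Setoid.ker ((s.im (Pj.id S) (fun _ _ => True) hA).Q.cellv c' k)))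
      (((s.im (Pj.id S) (fun _ _ => True) hA).lf i).win c k) / ((Sp.im (Pj.id S) fun _ _ => True).F k).n ≤
      Helper31.EC.h (cP s.Q c' k) ((s.lf i).win c k) / (S.F k).n := by
    intro k
    have h4 := Pool.Agent.Helper38.NSL.imap_h_le ((Pj.id S).fp k) (fun _ => True) (cP s.Q c' k) ((s.lf i).win c k)
    have h5 : (S.F k).pb (fun _ => True) = 1 := hpb k
    rw [h5, one_mul] at h4
    exact div_le_div_of_nonneg_right h4 (S.F k).pos.le
  have hU := (cP_Bd s.Q c').ub ((s.lf i).win c)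
  refine ul_mono ?_ hU (Eventually.of_forall hle)
  refine UB.sandwich (UB_const 0) hU (Eventually.of_forall fun k => div_nonneg (h_nonneg _ _) ?_)
    (Eventually.of_forall hle)
  exact (S.F k).pos.le

/-- the cells of the zoom are known to the label and to the cells of the system -/
theorem x_le {Z : ZU S} {Q : S.VV N} {a : ℝ} (z : PZ Z Q M') (tam : TamP z a) {e : ℝ} (he : 0 ≤ e) (he1 : e ≤ 1) :
    PLe (S := Z.sp) (cP z.X e) (upz Z (cP Q (a + Z.u * e))) := by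
  have hwe : 0 ≤ Z.u * e := mul_nonneg Z.hu.le he
  obtain ⟨K, hK, hT⟩ := tam.lp (Z.u * e) hwe (fun _ => 1) (S.Sub_const zero_le_one)
  have hT2 : Typ (S := Z.sp) (fun k (ω : (Z.l k).T.Ω) =>
    ∀ y : Fin N → ℝ, (∀ i, |y i - Q.v k ((Z.l k).p.π ω) i| ≤ 1 * S.dl (a + Z.u * e) k) → ∀ j,
      |MvPolynomial.eval y (z.R.p k ω j) - MvPolynomial.eval (Q.v k ((Z.l k).p.π ω)) (z.R.p k ω j)| ≤
        K k * S.dl (Z.u * e) k) := hT
  obtain ⟨KX, hKX, hX⟩ := z.hX
  refine Pool.Agent.Helper7.GZ.PLe_cell_typ (S := Z.sp) z.X e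
    (fun k => Setoid.comap (Z.l k).p.π (Setoid.ker (Q.cellv (a + Z.u * e) k))) (fun k => K k + 2 * KX k)
    (Z.Sub_sp.1 (hK.add ((S.Sub_const (by norm_num)).mul hKX))) (hX.and hT2) ?_
  filter_upwards [z.R.fn, hKX.1] with k hfn hKX0
  intro (ω : (Z.l k).T.Ω) (ω' : (Z.l k).T.Ω) a' b h1 h2 g r j
  obtain ⟨g1, g2, -⟩ := Z.hZ k ω ω' a' b g
  rw [Z.sp_dl']
  have h3 : z.R.p k ω = z.R.p k ω' := hfn ω ω' a' b g2 g1
  have h4 := h2.2 (Q.v k ((Z.l k).p.π ω)) (fun i => by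
    rw [one_mul]
    exact abs_sub_le_of_floor_eq (S.dl_pos _ k) (congrFun r i)) j
  have h5 := h1.1 j
  have h6 := h2.1 j
  have e1 : z.X.v k ω j - z.X.v k ω' j = (z.X.v k ω j - Rows.val Z z.R k ω j) +
      (Rows.val Z z.R k ω j - Rows.val Z z.R k ω' j) - (z.X.v k ω' j - Rows.val Z z.R k ω' j) := by ring
  have h7 : |Rows.val Z z.R k ω j - Rows.val Z z.R k ω' j| ≤ K k * S.dl (Z.u * e) k := by
    unfold Rows.val
    rw [h3]
    exact h4
  have hu := Z.hu
  have h10 : S.dl Z.u k ≤ S.dl (Z.u * e) k := S.dl_anti (by nlinarith) k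
  have h11 := mul_le_mul_of_nonneg_left h10 hKX0
  rw [e1, add_mul, mul_assoc]
  have h8 := abs_sub ((z.X.v k ω j - Rows.val Z z.R k ω j) +
      (Rows.val Z z.R k ω j - Rows.val Z z.R k ω' j)) (z.X.v k ω' j - Rows.val Z z.R k ω' j)
  have h9 := abs_add_le (z.X.v k ω j - Rows.val Z z.R k ω j) (Rows.val Z z.R k ω j - Rows.val Z z.R k ω' j)
  linarith

/-! ### the numbers -/

/-- entropy over a label, in the unit `w` -/
theorem H_up_cP (l : Lab S) {w : ℝ} (hw : 0 < w) (Q : S.VV N) (r : ℝ) :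
    H (up1 l (Q.dg r)) = w * hr (S := l.ovr w hw) (l.up w hw (cP Q r)) (fun _ => ⊥) := by
  have h2 : Q.dg r = cl (Q.bdd r).toInf := io_eq (Q.bdd r)
  rw [H_up1_upL l w hw, h2, l.upL_cl w hw, Sp.H_cl]
  congr 1
  unfold hr
  congr 1
  funext k
  have h3 := H_rpI (S := l.ovr w hw) (l.upI w hw (Q.bdd r).toInf) k
  rw [← h3]
  show _ = Helper31.EC.h (rpI (l.upI w hw (Q.bdd r).toInf) k) ⊥ / _
  rw [h_bot]

/-- chain rule for rates -/
theorem hr_chain2 {A B : Part S} (hA : A.Bd) (hB : B.Bd) (hBA : PLe B A) :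
    hr A (fun _ => ⊥) = hr B (fun _ => ⊥) + hr A B := by
  have t1 := hA.tendsto (fun _ => ⊥)
  have t2 := (hB.tendsto (fun _ => ⊥)).add (hA.tendsto B)
  have t3 := t2.sub hBA
  rw [sub_zero] at t3
  refine tendsto_nhds_unique t1 (t3.congr fun k => ?_)
  rw [← add_div, ← sub_div]
  congr 1
  have c1 := h_chain (B k) (A k) ⊥
  have c2 := h_chain (A k) (B k) ⊥
  rw [sup_bot_eq] at c1 c2
  rw [sup_comm (B k) (A k)] at c1
  linarith

/-! ### literal labels -/

section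

variable {W : Rsl S} {w : ℝ} (hu : 0 < w)

theorem upZ_eq (A : Part S) (k : ℕ) : (Lab.ofZ W).up w hu A k = (frb (S.F k) (W k) w hu).map (A k) := by
  show (frb (S.F k) (W k) w hu).map ((FLab.triv (S.F k)).p.map (A k)) = _
  induction A k using fc_ind
  rfl

theorem h_upZ (A B : Part S) (k : ℕ) : Helper31.EC.h ((Lab.ofZ W).up w hu A k) ((Lab.ofZ W).up w hu B k) =
    Helper31.EC.h (A k) (B k ⊔ fc (W k)) := by
  rw [upZ_eq, upZ_eq]
  exact (frb (S.F k) (W k) w hu).h_map (A k) (B k)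

theorem n_upZ (k : ℕ) : (((Lab.ofZ W).ovr w hu).F k).n = w * (S.F k).n := (Lab.ofZ W).n_over w hu k

theorem up_Bd {A : Part S} (hA : A.Bd) (l : Lab S) : (l.up w hu A).Bd := by
  have h1 : UB (fun k => w⁻¹ * (H (A k) / (S.F k).n)) := hA.const_mul w⁻¹
  refine UB.sandwich (UB_const 0) h1 (Eventually.of_forall fun k => div_nonneg (H_nonneg _) ?_)
    (Eventually.of_forall fun k => ?_)
  · exact ((l.ovr w hu).F k).pos.le
  · rw [l.n_over w hu, mul_comm w, ← div_div, div_eq_inv_mul]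
    refine mul_le_mul_of_nonneg_left (div_le_div_of_nonneg_right ?_ (S.F k).pos.le) (inv_nonneg.mpr hu.le)
    show H ((frb (l k).T (l k).V w hu).map ((l k).p.map (A k))) ≤ _
    rw [FRb.H_map, ← (l k).p.H_map (A k)]
    exact h_le_H _ _

/-- rates over a literal label -/
theorem hr_upZ {A : Part S} (hA : A.Bd) (B : Part S) : w * hr (S := (Lab.ofZ W).ovr w hu) ((Lab.ofZ W).up w hu A)
    ((Lab.ofZ W).up w hu B) = hr A (fun k => B k ⊔ fc (W k)) := by
  have h1 : (fun k => Helper31.EC.h ((Lab.ofZ W).up w hu A k) ((Lab.ofZ W).up w hu B k) /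
      (((Lab.ofZ W).ovr w hu).F k).n) = fun k => w⁻¹ * (Helper31.EC.h (A k) (B k ⊔ fc (W k)) / (S.F k).n) := by
    funext k
    rw [h_upZ, n_upZ, mul_comm w, ← div_div, div_eq_inv_mul]
  have h2 : ul (fun k => w⁻¹ * (Helper31.EC.h (A k) (B k ⊔ fc (W k)) / (S.F k).n)) =
      w⁻¹ * ul (fun k => Helper31.EC.h (A k) (B k ⊔ fc (W k)) / (S.F k).n) :=
    ul_const_mul w⁻¹ (hA.ub (fun k => B k ⊔ fc (W k)))
  unfold hr
  rw [h1, h2, ← mul_assoc, mul_inv_cancel₀ hu.ne', one_mul]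

end

/-! ### [N2] -/

/-- **[N2]** unit directions: the cells of the zoom over the label -/
theorem n2 {s : MSys S N E ι} {W : Rsl S} {c w a : ℝ} {h0 : 0 ≤ c} {hu : 0 < w} {h1 : c + w ≤ 1}
    (z : PZ (zuz W c w h0 hu h1) s.Q N) {t : MSys ((Lab.ofZ W).ovr w hu) N E' ι} (tQ : t.Q = z.X)
    (win : WinR s W c hu t) (tlb : TLb s c (Lab.ofZ W)) (ca : c ≤ a) (aw : a + w ≤ 1) (tam : TamP z a) {e : ℝ}
    (he : 0 ≤ e) (he1 : e ≤ 1) {v : ℕ} (hi : Inv v s) :
    w * H (t.Q.dg e) ≤ H (up1 (Lab.ofZ W) (s.Q.dg (a + w * e))) - v * (a - c) := by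
  obtain ⟨⟨i⟩, hi⟩ := hi
  have hwe : 0 ≤ w * e := mul_nonneg hu.le he
  have hwe1 : w * e ≤ w := mul_le_of_le_one_right hu.le he1
  have hBA : PLe (cP t.Q e) ((Lab.ofZ W).up w hu (cP s.Q (a + w * e))) := by
    rw [tQ]
    exact x_le z tam he he1
  have hA := up_Bd hu (cP_Bd s.Q (a + w * e)) (Lab.ofZ W)
  have h2 := hr_chain2 hA (cP_Bd t.Q e) hBA
  have h3 : hr ((Lab.ofZ W).up w hu (cP s.Q (a + w * e))) ((Lab.ofZ W).up w hu ((s.lf i).win (c + w * e))) ≤
      hr ((Lab.ofZ W).up w hu (cP s.Q (a + w * e))) (cP t.Q e) :=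
    hr_anti hA (((t.lf i).dg_win he he1).trans (win e i he he1).1)
  have h4 := hr_upZ (W := W) hu (cP_Bd s.Q (a + w * e)) ((s.lf i).win (c + w * e))
  have h5 : hr (cP s.Q (a + w * e)) ((s.lf i).win (c + w * e)) ≤
      hr (cP s.Q (a + w * e)) (fun k => (s.lf i).win (c + w * e) k ⊔ fc (W k)) := by
    have h6 : PLe (fun k => fc (W k)) ((s.lf i).win (c + w * e)) := by
      have h7 : PLe (fun k => fc (W k)) ((s.lf i).win c) := by
        have h8 := tlb i
        have e1 : (fun k => ((Lab.ofZ W) k).leak ((s.lf i).win c k)) = fun k =>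
            Helper31.EC.h (fc (W k)) ((s.lf i).win c k) := funext fun k => Lab.ofZ_leak W _ k
        rw [e1] at h8
        exact h8
      exact h7.trans ((s.lf i).win_mono (by linarith))
    exact hr_anti (cP_Bd s.Q (a + w * e)) (PLe.sup_le (PLe.refl _) h6)
  have h6 := ud_one (hi i) (c := c + w * e) (c' := a + w * e) (by linarith) (by linarith) (by linarith)
  have e2 : a + w * e - (c + w * e) = a - c := by ring
  rw [e2] at h6
  have h7 := mul_le_mul_of_nonneg_left h3 hu.le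
  rw [H_dg_hr t.Q e, H_up_cP (Lab.ofZ W) hu s.Q (a + w * e), h2, mul_add]
  linarith

end

end Pool.Agent.Helper80.FST
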