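import Pool.Agent.Helper15.FST.St
import Pool.Agent.Helper80.FST.Nz

/-! FIRST: row [N2] of helper15. -/

set_option autoImplicit false

namespace Pool.Agent.Helper80.FST

open Pool.Agent.Helper15.FST

theorem row_n2 : ROW_N2 := by
  intro S N g r κ v s c a w U Z e he he1 hi
  exact n2 Z.z Z.tQ Z.win Z.tlb Z.ca Z.aw Z.tam he he1 hi

end Pool.Agent.Helper80.FST
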