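import Pool.Agent.Helper80.FST.Row2
import Pool.Agent.Helper89.RAD.Kw

/-! FIRST: rows [N4], [N5] of helper15. -/

set_option autoImplicit false

namespace Pool.Agent.Helper80.FST

open Finset Filter Topology Matrix Pool.Agent.Helper69.RK Pool.Agent.Helper31.EC Pool.Agent.Helper31.EC.Sp
open Pool.Agent.Helper40.EL Pool.Agent.Helper89.LX Pool.Agent.Helper84.MT
open Pool.Agent.Helper70.CPW (zuz WinR)
open Pool.Agent.Helper29.MX
open Pool.Agent.Helper7.RD (PZ upz)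
open Pool.Agent.Helper25.MXD (H_up1_upL)
open Pool.Agent.Helper15.FST

noncomputable section

variable {S : Sp} {N : ℕ} {E E' : ℕ → ℕ} {ι : Type}

/-- conditional entropies over finer literal labels are smaller -/
theorem h_ofZ_mono {V V' : Rsl S} (hV : ∀ k, V' k ≤ V k) (x y : S.L) :
    h (up1 (Lab.ofZ V') x) (up1 (Lab.ofZ V') y) ≤ h (up1 (Lab.ofZ V) x) (up1 (Lab.ofZ V) y) := by
  rw [(Lab.ofZ V').hr_upL, (Lab.ofZ V).hr_upL, div_one, div_one]
  have hu : ∀ (U : Rsl S), UB (fun k => h ((Lab.ofZ U k).p.map (rp x k)) ((Lab.ofZ U k).p.map (rp y k) ⊔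
      (Lab.ofZ U k).v) / (S.F k).n) := by
    intro U
    refine UB.sandwich (UB_const 0) ((rp_Bd x).ub (fun _ => ⊥)) ?_ ?_
    · exact Eventually.of_forall fun k => div_nonneg (h_nonneg _ _) (S.F k).pos.le
    · refine Eventually.of_forall fun k => div_le_div_of_nonneg_right ?_ (S.F k).pos.le
      rw [h_bot, ← (Lab.ofZ U k).p.H_map]
      exact h_le_H _ _
  refine ul_mono (hu V') (hu V) (Eventually.of_forall fun k => div_le_div_of_nonneg_right ?_ (S.F k).pos.le)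
  exact h_anti (sup_le_sup_left (fc_mono (hV k)) _)

/-- the cells of the zoom are functions of the point over the label -/
theorem zQ_le {s : MSys S N E ι} {W : Rsl S} {c w a : ℝ} {h0 : 0 ≤ c} {hu : 0 < w} {h1 : c + w ≤ 1}
    (z : PZ (zuz W c w h0 hu h1) s.Q N) {t : MSys ((Lab.ofZ W).ovr w hu) N E' ι} (tQ : t.Q = z.X)
    (aw : a + w ≤ 1) (tam : Pool.Agent.Helper93.FST.TamP z a) {e : ℝ} (he : 0 ≤ e) (he1 : e ≤ 1) :
    t.Q.dg e ≤ (Lab.ofZ W).upL w hu (s.Q.dg 1) := by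
  have hwe1 : w * e ≤ w := mul_le_of_le_one_right hu.le he1
  have e1 : t.Q.dg e = Sp.cl (t.Q.bdd e).toInf := io_eq (t.Q.bdd e)
  have e2 : s.Q.dg 1 = Sp.cl (s.Q.bdd 1).toInf := io_eq (s.Q.bdd 1)
  rw [e1, e2, (Lab.ofZ W).upL_cl w hu, ← PLe_rpI, (Lab.ofZ W).rpI_upI]
  have hA : PLe (cP t.Q e) ((Lab.ofZ W).up w hu (cP s.Q (a + w * e))) := by
    rw [tQ]
    exact x_le z tam he he1
  exact hA.trans ((Lab.ofZ W).PLe_up w hu (PLe_cell_cell s.Q (by linarith) _ fun k => le_rfl))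

/-- chain rule for comparable elements -/
theorem h_eq_sub {L : Type} [PM L] {x y : L} (hxy : x ≤ y) : h y x = H y - H x := by
  have h1 := H_chain x y
  rw [sup_eq_right.mpr hxy] at h1
  linarith

theorem row_n4 : ROW_N4 := by
  intro S N g r κ s c a w U Z e he he1
  have hxy := zQ_le Z.z Z.tQ Z.aw Z.tam he.le he1
  set x := Z.t.Q.dg e with hx
  set y := (Lab.ofZ Z.W).upL w Z.hu (s.Q.dg 1) with hy
  have hc : ∀ l : Lab ((Lab.ofZ Z.W).ovr w Z.hu), H (up1 (Z.cl l) (s.Q.dg 1)) = w * H (up1 l y) := fun l =>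
    (Lab.ofZ Z.W).H_comp w Z.hu l (s.Q.dg 1)
  refine ⟨fun l => ?_, fun V V' hV => ?_⟩
  · rw [hc, H_up1_upL (Lab.ofZ Z.W) w Z.hu, ← mul_sub]
    refine mul_le_mul_of_nonneg_left ?_ Z.hu.le
    have h1 := h_up1_le l y x
    rw [h_eq_sub hxy, h_eq_sub (up1_mono l hxy)] at h1
    linarith
  · rw [hc, hc, ← mul_sub]
    refine mul_le_mul_of_nonneg_left ?_ Z.hu.le
    have h1 := h_ofZ_mono hV y x
    rw [h_eq_sub (up1_mono _ hxy), h_eq_sub (up1_mono _ hxy)] at h1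
    linarith

theorem row_n5 : ROW_N5 := by
  intro S N g r κ s c a w U Z b hb hb1 l hl
  refine ⟨fun i => ?_, ?_⟩
  · have h1 : Nul ((Lab.ofZ Z.W).ovr w Z.hu) (fun k => ((Lab.ofZ Z.W).ovl w Z.hu l k).leak
        ((Lab.ofZ Z.W).up w Z.hu ((s.lf i).win (c + w * b)) k)) := by
      rw [Lab.nul_over]
      apply (hl i).of_le (Eventually.of_forall fun k => FLab.leak_nonneg _ _)
      exact Eventually.of_forall fun k => (Lab.ofZ Z.W k).ovl_leak_le w Z.hu (l k) ((s.lf i).win (c + w * b) k)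
    have h2 : Nul ((Lab.ofZ Z.W).ovr w Z.hu) _ := (Z.win b i hb hb1).2
    refine (h1.add h2).of_le (Eventually.of_forall fun k => FLab.leak_nonneg _ _) (Eventually.of_forall fun k => ?_)
    exact ((Lab.ofZ Z.W).ovl w Z.hu l k).leak_le_leak _ _
  · show H (up1 ((Lab.ofZ Z.W).comp w Z.hu ((Lab.ofZ Z.W).ovl w Z.hu l)) (s.Q.dg 1)) ≤ _
    rw [Pool.Agent.Helper89.RAD.H_comp_ovl]
    exact Pool.Agent.Helper89.RAD.H_join_right _ _ _

end

end Pool.Agent.Helper80.FST
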